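import Mathlib
import Pool.Agent.X318.PermCyc

/-!
# MP_cf7092_nt, Q1: `per[|j-k|]_{1≤j,k≤p} ≡ -1/2 (mod p)` for every odd prime `p`
-/

set_option autoImplicit false

open Finset

namespace Pool.Agent.Results.MP_cf7092_nt.PermAbs

/-- The permanent of a square integer matrix. -/
def per {n : ℕ} (M : Matrix (Fin n) (Fin n) ℤ) : ℤ := ∑ σ : Equiv.Perm (Fin n), ∏ j : Fin n, M j (σ j)

/-- The matrix with entries `|j - k|`, `1 ≤ j, k ≤ n` (the index `i : Fin n` stands for `i + 1`). -/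
def D (n : ℕ) : Matrix (Fin n) (Fin n) ℤ := fun j k => |(((j : ℕ) : ℤ) + 1) - (((k : ℕ) : ℤ) + 1)|

/-- **Main result.** -/
theorem result (p : ℕ) (hp : p.Prime) (hodd : Odd p) : (p : ℤ) ∣ 2 * per (D p) + 1 := by
  have : Fact p.Prime := ⟨hp⟩
  have h := Pool.Agent.X318.PermCyc.main_fin hodd 0
  have h1 : per (D p) = ∑ σ : Equiv.Perm (Fin p), ∏ j : Fin p,
      (|((j : ℕ) : ℤ) - ((σ j : ℕ) : ℤ)| + (if j = σ j then (0 : ℤ) else 0)) := by
    unfold per D
    refine sum_congr rfl fun σ _ => prod_congr rfl fun j _ => ?_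
    rw [add_sub_add_right_eq_sub, ite_self, add_zero]
  rw [h1]
  have e : ∀ x : ℤ, 2 * x + 1 = 2 * x - (2 * 0 - 1) := fun x => by ring
  rw [e]
  exact h

end Pool.Agent.Results.MP_cf7092_nt.PermAbs
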